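import Pool.Agent.Work.MP_2738db_nt_A.Interface

/-!
TLK: choice of parameters in the two logarithms theorem over a number field.
-/

set_option autoImplicit false

namespace Pool.Agent.Work.MP_2738db_nt_A.helper44

open Finset NumberField

lemma choose_bound {K ℓ k z : ℕ} (hK : 1 ≤ K) (hℓ : 1 ≤ ℓ) (hk : k < K) (hz : z ≤ K * ℓ) :
    (Nat.choose z k : ℝ) ≤ Real.exp K * (ℓ : ℝ) ^ K := by
  have hℓ0 : (0 : ℝ) < ℓ := by exact_mod_cast hℓ
  have hK0 : (0 : ℝ) < K := by exact_mod_cast hK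
  have h1 : (Nat.choose z k : ℝ) ≤ Nat.choose (K * ℓ) k := by
    exact_mod_cast Nat.choose_le_choose k hz
  have h2 : (Nat.choose (K * ℓ) k : ℝ) * (1 / ℓ : ℝ) ^ k ≤ (1 + 1 / ℓ : ℝ) ^ (K * ℓ) := by
    rw [add_comm, add_pow]
    by_cases hkk : k ≤ K * ℓ
    · have h3 := Finset.single_le_sum
        (f := fun m => (1 / ℓ : ℝ) ^ m * 1 ^ (K * ℓ - m) * (Nat.choose (K * ℓ) m : ℝ))
        (s := range (K * ℓ + 1)) (fun m _ => by positivity) (mem_range.mpr (Nat.lt_succ_of_le hkk))
      refine le_trans (le_of_eq ?_) h3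
      simp only [one_pow, mul_one]
      ring
    · rw [Nat.choose_eq_zero_of_lt (by omega)]
      simp only [Nat.cast_zero, zero_mul]
      positivity
  have h4 : (1 + 1 / ℓ : ℝ) ^ (K * ℓ) ≤ Real.exp K := by
    calc (1 + 1 / ℓ : ℝ) ^ (K * ℓ) ≤ (Real.exp (1 / ℓ)) ^ (K * ℓ) := by
          apply pow_le_pow_left₀ (by positivity)
          rw [add_comm]
          exact Real.add_one_le_exp _
      _ = Real.exp K := by
          rw [← Real.exp_nat_mul]
          congr 1
          push_cast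
          field_simp
  have h5 : (Nat.choose (K * ℓ) k : ℝ) ≤ Real.exp K * (ℓ : ℝ) ^ k := by
    have h6 := h2.trans h4
    rw [one_div, inv_pow] at h6
    have h7 : (0 : ℝ) < (ℓ : ℝ) ^ k := by positivity
    calc (Nat.choose (K * ℓ) k : ℝ)
        = ((Nat.choose (K * ℓ) k : ℝ) * ((ℓ : ℝ) ^ k)⁻¹) * (ℓ : ℝ) ^ k := by
          field_simp
      _ ≤ Real.exp K * (ℓ : ℝ) ^ k := mul_le_mul_of_nonneg_right h6 h7.le
  refine h1.trans (h5.trans ?_)
  apply mul_le_mul_of_nonneg_left _ (Real.exp_pos _).le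
  exact pow_le_pow_right₀ (by exact_mod_cast hℓ) hk.le

lemma log_le_sqrt {t s : ℝ} (hs : 0 < s) (ht : s ^ 2 ≤ t) : Real.log t ≤ 2 * t / s := by
  have ht0 : 0 < t := lt_of_lt_of_le (by positivity) ht
  have h1 : Real.log t = Real.log (t / s ^ 2) + 2 * Real.log s := by
    rw [Real.log_div ht0.ne' (by positivity), Real.log_pow]
    push_cast; ring
  have h2 : Real.log (√t) ≤ √t := by
    have := Real.log_le_sub_one_of_pos (Real.sqrt_pos.mpr ht0)
    linarith
  have h3 : Real.log t = 2 * Real.log (√t) := by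
    rw [Real.log_sqrt ht0.le]; ring
  have h4 : s ≤ √t := Real.le_sqrt_of_sq_le ht
  have h5 : √t * √t = t := Real.mul_self_sqrt ht0.le
  rw [h3, le_div_iff₀ hs]
  nlinarith [Real.sqrt_nonneg t]

theorem stmt_Tlk (hCor : Stmt_Cor) : Stmt_Tlk := by
  intro F _ _ P x₁ x₂ y₁ y₂ ℓ M A B D hP hP0 hx₁ hx₂ hy₁ hy₂ hyy hnd h hD hDf hA hB
    hAy₁ hAy₂ hBx₁ hBx₂ hℓB
  by_contra hcon
  rw [not_le] at hcon
  have hD2 : 1 ≤ D ^ 2 := one_le_pow₀ hD
  have hℓ : 1 ≤ ℓ := by
    rcases Nat.eq_zero_or_pos ℓ with h0 | h0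
    · exfalso
      rw [h0] at hℓB
      simp only [Nat.cast_zero, Real.log_zero, add_zero, mul_one] at hℓB
      have : 0 < 6200 * D ^ 2 * B := by positivity
      linarith
    · exact h0
  have hℓ1 : (1 : ℝ) ≤ ℓ := by exact_mod_cast hℓ
  set lam : ℝ := 1 + Real.log ℓ with hlam
  have hlam1 : 1 ≤ lam := by have := Real.log_nonneg hℓ1; linarith
  have hDlam : 1 ≤ D * lam := one_le_mul_of_one_le_of_one_le hD hlam1
  set L : ℕ := ⌈60 * (D * lam)⌉₊ with hLdef
  have hL1 : 60 * (D * lam) ≤ L := Nat.le_ceil _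
  have hL2 : (L : ℝ) ≤ 61 * (D * lam) := by
    have := Nat.ceil_lt_add_one (show 0 ≤ 60 * (D * lam) by linarith)
    rw [← hLdef] at this
    linarith
  have hL60 : (60 : ℝ) ≤ L := by linarith
  have hL60D : 60 * D ≤ L := by
    have := le_mul_of_one_le_right (show 0 ≤ D by linarith) hlam1
    linarith
  have hAB : 1 ≤ A * B := one_le_mul_of_one_le_of_one_le hA hB
  set q : ℝ := L * (A * B) with hq
  have hLnn : (0 : ℝ) ≤ L := by linarith
  have hLq : (L : ℝ) ≤ q := by rw [hq]; exact le_mul_of_one_le_right hLnn hAB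
  have hLA : (L : ℝ) * A ≤ q := by
    rw [hq]
    exact mul_le_mul_of_nonneg_left (le_mul_of_one_le_right (by linarith) hB) hLnn
  have hLB : (L : ℝ) * B ≤ q := by
    rw [hq]
    exact mul_le_mul_of_nonneg_left (le_mul_of_one_le_left (by linarith) hA) hLnn
  have hAq : 60 * A ≤ q :=
    (mul_le_mul_of_nonneg_right hL60 (by linarith)).trans hLA
  have hBq : 60 * B ≤ q :=
    (mul_le_mul_of_nonneg_right hL60 (by linarith)).trans hLB
  have hq60 : 60 ≤ q := by linarith
  have hq0 : 0 < q := by linarith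
  have hDq : q ≤ D * q := le_mul_of_one_le_left hq0.le hD
  have hD0 : 0 < D := by linarith
  set K : ℕ := ⌈10 ^ 4 * D ^ 2 * q⌉₊ with hKdef
  have hK1 : 10 ^ 4 * D ^ 2 * q ≤ K := Nat.le_ceil _
  have hK2 : (K : ℝ) ≤ 10 ^ 4 * D ^ 2 * q + 1 := by
    have := Nat.ceil_lt_add_one (show 0 ≤ 10 ^ 4 * D ^ 2 * q by positivity)
    rw [← hKdef] at this
    linarith
  set R : ℕ := ⌈100 * (D * (L * B))⌉₊ + 1 with hRdef
  have hR1 : 100 * (D * (L * B)) + 1 ≤ R := by
    rw [hRdef]; push_cast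
    have := Nat.le_ceil (100 * (D * (L * B)))
    linarith
  have hR2 : (R : ℝ) ≤ 100 * (D * (L * B)) + 2 := by
    rw [hRdef]; push_cast
    have := Nat.ceil_lt_add_one (show 0 ≤ 100 * (D * (L * B)) by positivity)
    linarith
  set S : ℕ := ⌈100 * (D * (L * A))⌉₊ with hSdef
  have hS1 : 100 * (D * (L * A)) ≤ S := Nat.le_ceil _
  have hS2 : (S : ℝ) ≤ 100 * (D * (L * A)) + 1 := by
    have := Nat.ceil_lt_add_one (show 0 ≤ 100 * (D * (L * A)) by positivity)
    rw [← hSdef] at this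
    linarith
  have hD2q : D * q ≤ D ^ 2 * q := by
    have h1 : D ^ 2 * q = D * (D * q) := by ring
    rw [h1]
    exact mul_le_mul_of_nonneg_left hDq hD0.le
  have hKq : 10 ^ 4 * (D ^ 2 * q) ≤ K := by linarith
  have hK0 : 1 ≤ K := by
    have : (1 : ℝ) ≤ K := by linarith
    exact_mod_cast this
  have hL0 : 1 ≤ L := by
    have : (1 : ℝ) ≤ L := by linarith
    exact_mod_cast this
  -- conditions
  have hRℓ : R ≤ ℓ := by
    have h1 : (R : ℝ) ≤ ℓ := by
      have h2 : L * B ≤ 61 * (D * lam) * B := mul_le_mul_of_nonneg_right hL2 (by linarith)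
      have h3 : D * (L * B) ≤ D * (61 * (D * lam) * B) := mul_le_mul_of_nonneg_left h2 hD0.le
      have h4 : D * (61 * (D * lam) * B) = 61 * (D ^ 2 * B * lam) := by ring
      have h5 : 1 ≤ D ^ 2 * B * lam := by
        have : 1 ≤ D ^ 2 * B := one_le_mul_of_one_le_of_one_le hD2 hB
        exact one_le_mul_of_one_le_of_one_le this hlam1
      have h6 : 6200 * D ^ 2 * B * lam = 6200 * (D ^ 2 * B * lam) := by ring
      rw [h6] at hℓB
      linarith
    exact_mod_cast h1
  have hKL : K * L ≤ R * S := by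
    have h1 : (K : ℝ) * L ≤ R * S := by
      have h2 : (L : ℝ) ≤ 100 * (D * (L * A)) := by
        have : (L : ℝ) ≤ D * (L * A) := by
          have h3 : (L : ℝ) ≤ L * A := le_mul_of_one_le_right hLnn hA
          exact h3.trans (le_mul_of_one_le_left (by positivity) hD)
        linarith
      calc (K : ℝ) * L ≤ (10 ^ 4 * D ^ 2 * q + 1) * L := mul_le_mul_of_nonneg_right hK2 hLnn
        _ = (100 * (D * (L * B))) * (100 * (D * (L * A))) + L := by rw [hq]; ring
        _ ≤ (100 * (D * (L * B))) * (100 * (D * (L * A))) + 1 * (100 * (D * (L * A))) := by linarith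
        _ = (100 * (D * (L * B)) + 1) * (100 * (D * (L * A))) := by ring
        _ ≤ R * S := by
            apply mul_le_mul hR1 hS1 (by positivity) (by positivity)
    exact_mod_cast h1
  have hZ : R + (S + L) * ℓ ≤ K * ℓ := by
    have h3 : 1 + (S + L) ≤ K := by
      have h4 : (1 : ℝ) + (S + L) ≤ K := by
        have h5 : D * (L * A) ≤ D * q := mul_le_mul_of_nonneg_left hLA hD0.le
        linarith
      exact_mod_cast h4
    calc R + (S + L) * ℓ ≤ 1 * ℓ + (S + L) * ℓ := by omega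
      _ = (1 + (S + L)) * ℓ := by ring
      _ ≤ K * ℓ := Nat.mul_le_mul_right _ h3
  have hM' : K * L ≤ M := by
    have h1 : (K : ℝ) * L ≤ M := by
      have h2 : (1 : ℝ) ≤ D ^ 2 * (A * B) := one_le_mul_of_one_le_of_one_le hD2 hAB
      have h3 : (L : ℝ) ≤ D ^ 2 * (A * B) * L ^ 2 := by
        have h4 : (L : ℝ) ≤ 1 * L ^ 2 := by
          rw [one_mul, sq]
          exact le_mul_of_one_le_left hLnn (by linarith)
        exact h4.trans (mul_le_mul_of_nonneg_right h2 (sq_nonneg _))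
      calc (K : ℝ) * L ≤ (10 ^ 4 * D ^ 2 * q + 1) * L := mul_le_mul_of_nonneg_right hK2 hLnn
        _ = 10 ^ 4 * (D ^ 2 * (A * B) * L ^ 2) + L := by rw [hq]; ring
        _ ≤ (10 ^ 4 + 1) * (D ^ 2 * (A * B) * L ^ 2) := by linarith
        _ ≤ (10 ^ 4 + 1) * (D ^ 2 * (A * B) * (61 * (D * lam)) ^ 2) := by
            apply mul_le_mul_of_nonneg_left _ (by norm_num)
            apply mul_le_mul_of_nonneg_left _ (by positivity)
            exact pow_le_pow_left₀ (by positivity) hL2 2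
        _ = (10 ^ 4 + 1) * 61 ^ 2 * (D ^ 4 * (A * B) * lam ^ 2) := by ring
        _ ≤ 4 * 10 ^ 7 * (D ^ 4 * (A * B) * lam ^ 2) := by
            apply mul_le_mul_of_nonneg_right _ (by positivity)
            norm_num
        _ = 4 * 10 ^ 7 * D ^ 4 * A * B * lam ^ 2 := by ring
        _ ≤ M := hcon.le
    exact_mod_cast h1
  have hcore := hCor F P x₁ x₂ y₁ y₂ ℓ K L R S (K * ℓ) M A B (K * lam) hP hP0 hx₁ hx₂ hy₁ hy₂ hyy
    (fun i j hij _ => hnd i j hij) h (by linarith) (by linarith) hAy₁ hAy₂ hBx₁ hBx₂ hℓ hRℓ hKL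
    hK0 hL0 hM' hZ (fun k hk z hz => by
      refine (choose_bound hK0 hℓ hk hz).trans (le_of_eq ?_)
      have hℓpos : (0 : ℝ) < ℓ := by linarith
      rw [hlam, mul_add, mul_one, Real.exp_add, mul_comm (K : ℝ) (Real.log ℓ), Real.exp_mul,
        Real.exp_log hℓpos, Real.rpow_natCast]) (by positivity)
  set G : ℕ := ∑ l ∈ range L, l with hG
  have hG2 : (G : ℝ) * 2 = L * (L - 1) := by
    have h1 := Finset.sum_range_id_mul_two L
    rw [← hG] at h1
    have h2 : ((G * 2 : ℕ) : ℝ) = ((L * (L - 1) : ℕ) : ℝ) := by rw [h1]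
    push_cast [Nat.cast_sub hL0] at h2
    exact h2
  have hG3 : (49 / 100 : ℝ) * L ^ 2 ≤ G := by
    have h1 : (60 : ℝ) * L ≤ L ^ 2 := by
      rw [sq]
      exact mul_le_mul_of_nonneg_right hL60 hLnn
    have h2 : (L : ℝ) * (L - 1) = L ^ 2 - L := by ring
    linarith
  push_cast at hcore
  have hK0' : (0 : ℝ) < K := by exact_mod_cast hK0
  have hL0' : (0 : ℝ) < L := by exact_mod_cast hL0
  have hG0 : (0 : ℝ) ≤ G := by positivity
  have hfac : Real.log ((K * L).factorial : ℝ) ≤ (K * L : ℝ) * Real.log (K * L) := by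
    have h1 : (((K * L).factorial : ℕ) : ℝ) ≤ ((K * L : ℕ) : ℝ) ^ (K * L) := by
      exact_mod_cast Nat.factorial_le_pow (K * L)
    have h2 := Real.log_le_log (by positivity) h1
    rw [Real.log_pow] at h2
    push_cast at h2
    exact h2
  have hfac0 : 0 ≤ Real.log ((K * L).factorial : ℝ) := by
    apply Real.log_nonneg
    exact_mod_cast Nat.one_le_iff_ne_zero.mpr (Nat.factorial_ne_zero _)
  have hN2 : 2 ≤ Ideal.absNorm P := by
    have h1 : Ideal.absNorm P ≠ 0 := by
      rw [Ne, Ideal.absNorm_eq_zero_iff]; exact hP0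
    have h2 : Ideal.absNorm P ≠ 1 := by
      rw [Ne, Ideal.absNorm_eq_one_iff]; exact hP.ne_top
    omega
  have hlog2 : (69 / 100 : ℝ) ≤ Real.log (Ideal.absNorm P) := by
    have h1 : Real.log 2 ≤ Real.log (Ideal.absNorm P) :=
      Real.log_le_log (by norm_num) (by exact_mod_cast hN2)
    have h2 := Real.log_two_gt_d9
    linarith
  -- left side
  have hleft : (69 / 100 : ℝ) * (K * K * G) ≤ (K * K * G) * Real.log (Ideal.absNorm P) := by
    rw [mul_comm]
    exact mul_le_mul_of_nonneg_left hlog2 (by positivity)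
  -- the right side with D
  have hright : (Module.finrank ℚ F : ℝ) * (Real.log ((K * L).factorial : ℝ) + K * L * (K * lam) +
      (K * G) * (R * A + (S + L) * B)) ≤ D * (Real.log ((K * L).factorial : ℝ) +
      K * L * (K * lam) + (K * G) * (R * A + (S + L) * B)) := by
    apply mul_le_mul_of_nonneg_right hDf
    positivity
  -- exponent part
  have hexp : D * ((R : ℝ) * A + (S + L) * B) ≤ K * (21 / 1000) := by
    have h1 : (R : ℝ) * A ≤ (100 * (D * (L * B)) + 2) * A :=
      mul_le_mul_of_nonneg_right hR2 (by linarith)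
    have h2 : ((S : ℝ) + L) * B ≤ (100 * (D * (L * A)) + 1 + L) * B :=
      mul_le_mul_of_nonneg_right (by linarith) (by linarith)
    have h3 : (100 * (D * (L * B)) + 2) * A = 100 * (D * q) + 2 * A := by rw [hq]; ring
    have h4 : (100 * (D * (L * A)) + 1 + L) * B = 100 * (D * q) + B + L * B := by rw [hq]; ring
    rw [h3] at h1
    rw [h4] at h2
    have h5 : (R : ℝ) * A + (S + L) * B ≤ 202 * (D * q) := by linarith
    calc D * ((R : ℝ) * A + (S + L) * B) ≤ D * (202 * (D * q)) :=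
          mul_le_mul_of_nonneg_left h5 hD0.le
      _ = 202 * (D ^ 2 * q) := by ring
      _ ≤ K * (21 / 1000) := by
        have : 0 < D ^ 2 * q := by positivity
        linarith
  have hexp2 : D * ((K * G) * ((R : ℝ) * A + (S + L) * B)) ≤ (21 / 1000) * (K * K * G) := by
    calc D * ((K * G) * ((R : ℝ) * A + (S + L) * B))
        = (K * G) * (D * ((R : ℝ) * A + (S + L) * B)) := by ring
      _ ≤ (K * G) * (K * (21 / 1000)) :=
          mul_le_mul_of_nonneg_left hexp (by positivity)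
      _ = _ := by ring
  have hmid : D * ((K : ℝ) * L * (K * lam)) ≤ (K * K * L ^ 2) / 60 := by
    calc D * ((K : ℝ) * L * (K * lam)) = (K * K * L) * (D * lam) := by ring
      _ ≤ (K * K * L) * (L / 60) := mul_le_mul_of_nonneg_left (by linarith) (by positivity)
      _ = _ := by ring
  have hKLbig : (6000 * D) ^ 2 ≤ (K : ℝ) * L := by
    calc (6000 * D) ^ 2 = 10 ^ 4 * (D ^ 2 * (60 * 1)) * 60 := by ring
      _ ≤ 10 ^ 4 * (D ^ 2 * q) * L := by
          apply mul_le_mul _ hL60 (by norm_num) (by positivity)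
          apply mul_le_mul_of_nonneg_left _ (by norm_num)
          apply mul_le_mul_of_nonneg_left _ (by positivity)
          linarith
      _ ≤ K * L := mul_le_mul_of_nonneg_right hKq hLnn
  have hlogKL : D * Real.log ((K : ℝ) * L) ≤ (K * L) / 10 := by
    have h1 := log_le_sqrt (show 0 < 6000 * D by positivity) hKLbig
    have h2 : 0 < (K : ℝ) * L := by positivity
    calc D * Real.log ((K : ℝ) * L) ≤ D * (2 * ((K : ℝ) * L) / (6000 * D)) :=
          mul_le_mul_of_nonneg_left h1 hD0.le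
      _ = (K * L) / 3000 := by field_simp; ring
      _ ≤ (K * L) / 10 := by linarith
  have hfac2 : D * Real.log ((K * L).factorial : ℝ) ≤ (K * K * L ^ 2) / 10 := by
    calc D * Real.log ((K * L).factorial : ℝ) ≤ D * ((K * L : ℝ) * Real.log (K * L)) :=
          mul_le_mul_of_nonneg_left hfac hD0.le
      _ = (K * L : ℝ) * (D * Real.log (K * L)) := by ring
      _ ≤ (K * L : ℝ) * ((K * L) / 10) := mul_le_mul_of_nonneg_left hlogKL (by positivity)
      _ = _ := by ring
  have hfinal : (K * K * G : ℝ) * (669 / 1000) ≤ (K * K * L ^ 2) * (7 / 60) := by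
    have h1 := hcore.trans hright
    rw [mul_add, mul_add] at h1
    linarith
  have hKK : (0 : ℝ) < K * K := by positivity
  have h8 : (K * K) * ((49 / 100) * L ^ 2) * (669 / 1000) ≤ (K * K * G : ℝ) * (669 / 1000) := by
    apply mul_le_mul_of_nonneg_right _ (by norm_num)
    exact mul_le_mul_of_nonneg_left hG3 hKK.le
  have h9 : (0 : ℝ) < K * K * L ^ 2 := by positivity
  have h10 : ((K : ℝ) * K) * ((49 / 100) * L ^ 2) * (669 / 1000) =
      (32781 / 100000) * (K * K * L ^ 2) := by ring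
  linarith

end Pool.Agent.Work.MP_2738db_nt_A.helper44
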